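import Mathlib

set_option autoImplicit false

namespace Pool.Agent.Results.MP_a80f1a_gt.No

open MeasureTheory Set Filter Topology Pointwise

/-- The `K`-surface area of `A` exists and equals `a`. -/
def HasSurf {d : ℕ} (K A : Set (Fin d → ℝ)) (a : ℝ) : Prop :=
  Tendsto (fun δ : ℝ => (volume.real (A + δ • K) - volume.real A) / δ) (𝓝[>] 0) (𝓝 a)

abbrev V := Fin 3 → ℝ

def N (x : V) : ℝ := |x 0| + |x 1| + |x 2|

def K : Set V := {x | N x ≤ 1}

def sg (ε : Fin 3 → Bool) : V := fun i => if ε i then 1 else -1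

def S (ε : Fin 3 → Bool) (x : V) : ℝ := sg ε 0 * x 0 + sg ε 1 * x 1 + sg ε 2 * x 2

def P (ε : Fin 3 → Bool) (δ t : ℝ) : Set V := {x | (∀ i, 2 * (sg ε i * x i) + δ < S ε x) ∧ S ε x ≤ t}

def Q (δ t : ℝ) : Set V := {x | (∀ i, 2 * |x i| + δ < N x) ∧ N x ≤ t}

theorem sg_sq (ε : Fin 3 → Bool) (i : Fin 3) : sg ε i * sg ε i = 1 := by
  unfold sg; split <;> norm_num

theorem volP (ε : Fin 3 → Bool) {δ t : ℝ} (h : 0 < t - 3 * δ) :
    volume (P ε δ t) = .ofReal ((t - 3 * δ) ^ 3) * volume (P ε 0 1) := by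
  have : P ε δ t = (δ • sg ε) +ᵥ (t - 3 * δ) • P ε 0 1 := by
    ext x
    rw [mem_vadd_set_iff_neg_vadd_mem, mem_smul_set_iff_inv_smul_mem₀ h.ne']
    have h1 : ∀ i, sg ε i * ((t - 3 * δ)⁻¹ • (-(δ • sg ε) +ᵥ x)) i =
        (sg ε i * x i - δ) / (t - 3 * δ) := fun i => by
      simp only [Pi.smul_apply, vadd_eq_add, Pi.add_apply, Pi.neg_apply, smul_eq_mul]
      linear_combination -(t - 3 * δ)⁻¹ * δ * sg_sq ε i
    simp only [P, S, mem_ofPred_eq, h1, ← add_div, div_le_one h, add_zero, ← mul_div_assoc,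
      div_lt_div_iff_of_pos_right h]
    exact and_congr (forall_congr' fun i => by constructor <;> intro <;> linarith)
      (by constructor <;> intro <;> linarith)
  rw [this, measure_vadd, Measure.addHaar_smul, abs_of_pos (by positivity)]
  simp

theorem P_pos {ε : Fin 3 → Bool} {δ t : ℝ} (h : 0 ≤ δ) {x : V} (hx : x ∈ P ε δ t) (i : Fin 3) :
    0 < sg ε i * x i := by
  have h0 := hx.1 0
  have h1 := hx.1 1
  have h2 := hx.1 2
  rw [S] at h0 h1 h2
  fin_cases i <;> simp only [Fin.zero_eta, Fin.mk_one, Fin.reduceFinMk] <;> linarith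

theorem mP (ε : Fin 3 → Bool) (δ t : ℝ) : MeasurableSet (P ε δ t) := by
  unfold P S; measurability

theorem mQ (δ t : ℝ) : MeasurableSet (Q δ t) := by
  unfold Q N; measurability

theorem volQ' {δ : ℝ} (t : ℝ) (h : 0 ≤ δ) : volume (Q δ t) = ∑ ε, volume (P ε δ t) := by
  have : Q δ t = ⋃ ε, P ε δ t := by
    ext x
    have h1 : ∀ ε, (∀ i, sg ε i * x i = |x i|) → (x ∈ P ε δ t ↔ x ∈ Q δ t) := fun ε h1 => by
      simp only [P, S, Q, N, h1, mem_ofPred_eq]
    refine ⟨fun hx => mem_iUnion.2 ⟨fun i => decide (0 ≤ x i), (h1 _ fun i => ?_).2 hx⟩, fun hx => ?_⟩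
    · by_cases h : 0 ≤ x i
      · simp [sg, h, abs_of_nonneg h]
      · simp [sg, h, abs_of_neg (not_le.1 h)]
    · obtain ⟨ε, hx⟩ := mem_iUnion.1 hx
      refine (h1 ε fun i => ?_).1 hx
      rw [← abs_of_pos (P_pos h hx i), abs_mul, sg]
      split <;> simp
  rw [this, measure_iUnion _ fun ε => mP ε δ t, tsum_fintype]
  intro ε ε' hε
  refine disjoint_left.2 fun x h1 h2 => hε (funext fun i => ?_)
  have h3 := P_pos h h1 i
  have h4 := P_pos h h2 i
  unfold sg at h3 h4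
  cases h5 : ε i <;> cases h6 : ε' i <;> simp [h5, h6] at h3 h4 ⊢ <;> linarith

theorem memK {s : ℝ} (hs : 0 < s) (x : V) : x ∈ s • K ↔ N x ≤ s := by
  rw [mem_smul_set_iff_inv_smul_mem₀ hs.ne']
  simp only [K, N, mem_ofPred_eq, Pi.smul_apply, smul_eq_mul, abs_mul, abs_of_pos (inv_pos.2 hs),
    ← mul_add, inv_mul_le_one₀ hs]

theorem bdd : Bornology.IsBounded K := isBounded_iff_forall_norm_le.2 ⟨1, fun x hx =>
  (pi_norm_le_iff_of_nonneg zero_le_one).2 fun i => by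
    have : |x 0| + |x 1| + |x 2| ≤ 1 := hx
    have h0 := abs_nonneg (x 0)
    have h1 := abs_nonneg (x 1)
    have h2 := abs_nonneg (x 2)
    fin_cases i <;> simp <;> linarith⟩

theorem conv : Convex ℝ K := fun x hx y hy a b ha hb h => by
  have h1 : ∀ i, |(a • x + b • y) i| ≤ a * |x i| + b * |y i| := fun i => by
    simpa [abs_mul, abs_of_nonneg ha, abs_of_nonneg hb] using abs_add_le (a * x i) (b * y i)
  have := mul_le_mul_of_nonneg_left (show |x 0| + |x 1| + |x 2| ≤ 1 from hx) ha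
  have := mul_le_mul_of_nonneg_left (show |y 0| + |y 1| + |y 2| ≤ 1 from hy) hb
  change _ + _ + _ ≤ (1 : ℝ)
  linarith [h1 0, h1 1, h1 2]

theorem volK {s : ℝ} (hs : 0 ≤ s) : volume.real (s • K) = s ^ 3 * volume.real K := by
  simp [Measure.real, Measure.addHaar_smul, abs_of_nonneg hs, hs]

theorem volQ {δ t : ℝ} (h : 0 ≤ δ) (ht : 0 < t - 3 * δ) :
    volume.real (Q δ t) = (t - 3 * δ) ^ 3 * volume.real (Q 0 1) := by
  rw [Measure.real, Measure.real, volQ' t h, volQ' 1 le_rfl]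
  simp only [volP _ ht, ← Finset.mul_sum, ENNReal.toReal_mul]
  rw [ENNReal.toReal_ofReal (by positivity)]

noncomputable def pt (i : Fin 6) : V :=
  ![![1, 0, 0], ![-1, 0, 0], ![0, 1, 0], ![0, -1, 0], ![0, 0, 1], ![0, 0, -1]] i

theorem one (x s : ℝ) : |x - 1| ≤ s ∨ |x + 1| ≤ s ↔ |x| - 1 ≤ s ∧ 1 - |x| ≤ s := by
  simp only [abs_le]
  cases abs_cases x <;> grind

theorem U {δ : ℝ} (h : 0 ≤ δ) : insert 0 (range pt) + (1 + δ) • K =
    (2 + δ) • K \ (Q δ (2 + δ) \ Q δ (1 + δ)) := by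
  ext x
  have h1 : x ∈ insert 0 (range pt) + (1 + δ) • K ↔ ∃ a ∈ insert 0 (range pt), N (x - a) ≤ 1 + δ := by
    simp only [Set.mem_add, ← memK (by linarith : 0 < 1 + δ)]
    exact exists_congr fun a => and_congr_right fun _ =>
      ⟨fun ⟨b, h1, h2⟩ => by simpa [← h2] using h1, fun h => ⟨_, h, by simp⟩⟩
  have h0 := one (x 0) (1 + δ - |x 1| - |x 2|)
  have h2 := one (x 1) (1 + δ - |x 0| - |x 2|)
  have h3 := one (x 2) (1 + δ - |x 0| - |x 1|)
  rw [h1, Set.mem_sdiff, memK (by linarith)]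
  simp [Fin.exists_fin_succ, Fin.forall_fin_succ, N, Q, pt]
  grind

theorem volU {δ : ℝ} (h : 0 ≤ δ) (h' : δ < 1 / 2) : volume.real (insert 0 (range pt) + (1 + δ) • K) =
    (2 + δ) ^ 3 * volume.real K - ((2 - 2 * δ) ^ 3 - (1 - 2 * δ) ^ 3) * volume.real (Q 0 1) := by
  have h1 : Q δ (2 + δ) ⊆ (2 + δ) • K := fun x hx => (memK (by linarith) x).2 hx.2
  have h2 : volume ((2 + δ) • K) ≠ ⊤ := (bdd.smul₀ _).measure_lt_top.ne
  have h3 : Q δ (1 + δ) ⊆ Q δ (2 + δ) := fun x hx => ⟨hx.1, by linarith [hx.2]⟩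
  rw [U h, measureReal_sdiff (sdiff_subset.trans h1) ((mQ _ _).diff (mQ _ _)) h2,
    measureReal_sdiff h3 (mQ _ _) (measure_ne_top_of_subset h1 h2),
    volK (by linarith), volQ h (by linarith), volQ h (by linarith)]
  ring

theorem result : ∃ (d : ℕ) (K : Set (Fin d → ℝ)) (r : ℝ) (x₀ : Fin d → ℝ) (n : ℕ)
    (x : Fin n → Fin d → ℝ) (a b : ℝ), 1 ≤ d ∧ Bornology.IsBounded K ∧ Convex ℝ K ∧ -K = K ∧
    (interior K).Nonempty ∧ 0 < r ∧ 1 ≤ n ∧ (∀ i, x i ∈ x₀ +ᵥ r • K) ∧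
    HasSurf K (x₀ +ᵥ (2 * r) • K) a ∧ HasSurf K (insert x₀ (range x) + r • K) b ∧ a < b := by
  have ho : IsOpen {x : V | (∀ i, 2 * |x i| + 0 < N x) ∧ N x < 1} := by
    rw [ofPred_and, ofPred_forall]
    unfold N
    exact (isOpen_iInter_of_finite fun i => isOpen_lt (by fun_prop) (by fun_prop)).inter
      (isOpen_lt (by fun_prop) (by fun_prop))
  have hm : (fun _ => 1 / 4 : V) ∈ {x : V | (∀ i, 2 * |x i| + 0 < N x) ∧ N x < 1} := by
    norm_num [N, abs_of_pos]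
  have hw : 0 < volume.real (Q 0 1) := ENNReal.toReal_pos
    ((ho.measure_pos _ ⟨_, hm⟩).trans_le (measure_mono fun x hx => And.intro hx.1 hx.2.le)).ne'
    (measure_ne_top_of_subset (fun x hx => hx.2) bdd.measure_lt_top.ne)
  have lim : ∀ (f g : ℝ → ℝ), Continuous g → (∀ δ ∈ Ioo (0 : ℝ) (1 / 2), f δ = δ * g δ) →
      Tendsto (fun δ => f δ / δ) (𝓝[>] 0) (𝓝 (g 0)) := fun f g hg h =>
    (hg.continuousAt.tendsto.mono_left nhdsWithin_le_nhds).congr' (by
      filter_upwards [Ioo_mem_nhdsGT (one_half_pos (α := ℝ))] with δ hδ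
      rw [h δ hδ, mul_div_cancel_left₀ _ hδ.1.ne'])
  refine ⟨3, K, 1, 0, 6, pt, _, _, by norm_num, bdd, conv, by ext x; simp [K, N],
    ⟨_, interior_maximal (fun x hx => hx.2.le) ho hm⟩, one_pos, by norm_num, fun i => ?_,
    lim _ (fun δ => (12 + 6 * δ + δ ^ 2) * volume.real K) (by fun_prop) fun δ hδ => ?_,
    lim _ (fun δ => (12 + 6 * δ + δ ^ 2) * volume.real K + (18 - 12 * δ) * volume.real (Q 0 1))
      (by fun_prop) fun δ hδ => ?_, by linarith⟩
  · fin_cases i <;> simp [pt, K, N]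
  · rw [zero_vadd, ← conv.add_smul (by norm_num) hδ.1.le, volK (by linarith [hδ.1]),
      volK (by norm_num)]
    ring
  · have := volU le_rfl one_half_pos
    rw [add_zero] at this
    rw [add_assoc, ← conv.add_smul zero_le_one hδ.1.le, volU hδ.1.le hδ.2, this]
    ring

end Pool.Agent.Results.MP_a80f1a_gt.No
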